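import Pool.Agent.H59R3.GamRel

set_option autoImplicit false

namespace Pool.Agent.Results.MP_274814_nt.LangRohrlichFails

open Finset Pool.Agent.H59R3

/-- The field `F_q` generated over `ℚ` by `π` and the numbers `Γ(a/q)`, `1 ≤ a ≤ q - 1`,
`gcd(a, q) = 1`. -/
noncomputable def gammaField (q : ℕ) : IntermediateField ℚ ℂ :=
  IntermediateField.adjoin ℚ
    ({(Real.pi : ℂ)} ∪
      {z : ℂ | ∃ a : ℕ, 1 ≤ a ∧ a ≤ q - 1 ∧ Nat.gcd a q = 1 ∧
        z = Complex.Gamma ((a : ℂ) / (q : ℂ))})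

/-- main bound, for `q = p n f` -/
theorem bound (p n f : ℕ) (hp : 0 < p) (hn : 0 < n) (hf : 1 < f) (hpf : Nat.Coprime p f)
    (hneg : ∀ k : ℕ, ¬ f ∣ p ^ k + 1)
    (hcop : ∀ b : ℕ, Nat.Coprime b (p * n * f) ↔ ¬ p ∣ b ∧ Nat.Coprime b f)
    (hq : 2 < p * n * f) :
    Algebra.trdeg ℚ (gammaField (p * n * f)) ≤
      ((Nat.totient (p * n * f) / 2 : ℕ) : Cardinal) := by
  classical
  have : NeZero f := ⟨by omega⟩
  have : Fact (1 < f) := ⟨hf⟩
  set q := p * n * f with hqdef
  have hq0 : 0 < q := by omega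
  have hpu : IsUnit (p : ZMod f) := (ZMod.isUnit_iff_coprime p f).mpr hpf
  have hfq : f ∣ q := Dvd.intro_left _ rfl
  have hqf : (q : ZMod f) = 0 := (ZMod.natCast_eq_zero_iff q f).mpr hfq
  -- `H` does not meet `-H`
  have hH : ∀ r : ZMod f, r ∈ Hp p f → -r ∉ Hp p f := by
    intro r hr hr'
    obtain ⟨i, hi⟩ := mem_Hp.mp hr
    obtain ⟨j, hj⟩ := mem_Hp.mp hr'
    have key : ∀ i j : ℕ, i ≤ j → (p : ZMod f) ^ i + (p : ZMod f) ^ j = 0 → False := by
      intro i j hij h
      have h2 : (p : ZMod f) ^ i * ((p : ZMod f) ^ (j - i) + 1) = 0 := by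
        rw [mul_add, ← pow_add, mul_one, Nat.add_sub_cancel' hij, add_comm]
        exact h
      have h3 : (p : ZMod f) ^ (j - i) + 1 = 0 := by
        have h4 : (p : ZMod f) ^ i * ((p : ZMod f) ^ (j - i) + 1) = (p : ZMod f) ^ i * 0 := by
          rw [h2, mul_zero]
        exact (hpu.pow i).mul_left_cancel h4
      apply hneg (j - i)
      rw [← ZMod.natCast_eq_zero_iff]
      push_cast
      exact h3
    have hsum : (p : ZMod f) ^ i + (p : ZMod f) ^ j = 0 := by
      rw [← hi, ← hj, add_neg_cancel]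
    rcases le_total i j with h | h
    · exact key i j h hsum
    · exact key j i h (by rw [add_comm]; exact hsum)
  -- coprimality of elements over `H`
  have hBcop : ∀ b : ℕ, (b : ZMod f) ∈ Hp p f → Nat.Coprime b f := by
    intro b hb
    obtain ⟨k, hk⟩ := mem_Hp.mp hb
    rw [← ZMod.isUnit_iff_coprime, hk]
    exact hpu.pow k
  set T : Finset ℕ := (range q).filter (fun b : ℕ => Nat.Coprime b q ∧
    ((b : ZMod f) ∈ Hp p f ∨ (-(b : ZMod f) ∉ Hp p f ∧ 2 * b < q))) with hT
  have hTmem : ∀ b, b ∈ T ↔ b < q ∧ Nat.Coprime b q ∧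
    ((b : ZMod f) ∈ Hp p f ∨ (-(b : ZMod f) ∉ Hp p f ∧ 2 * b < q)) := by
    intro b; rw [hT, Finset.mem_filter, Finset.mem_range]
  have hpos : ∀ b, Nat.Coprime b q → 0 < b := by
    intro b hb
    rcases Nat.eq_zero_or_pos b with h | h
    · subst h
      rw [Nat.coprime_zero_left] at hb
      omega
    · exact h
  have hcast : ∀ b, b < q → ((q - b : ℕ) : ZMod f) = -(b : ZMod f) := by
    intro b hb
    rw [Nat.cast_sub hb.le, hqf, zero_sub]
  have hcop' : ∀ b, b < q → Nat.Coprime b q → Nat.Coprime (q - b) q := by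
    intro b hb h
    exact (Nat.coprime_self_sub_left hb.le).mpr h
  -- disjointness
  have hdisj : ∀ b, b ∈ T → q - b ∉ T := by
    intro b hb hb'
    rw [hTmem] at hb hb'
    obtain ⟨h1, h2, h3⟩ := hb
    obtain ⟨h1', h2', h3'⟩ := hb'
    rw [hcast b h1, neg_neg] at h3'
    rcases h3 with h3 | ⟨h3, h4⟩
    · rcases h3' with h3' | ⟨h3', h4'⟩
      · exact hH _ h3 h3'
      · exact h3' h3
    · rcases h3' with h3' | ⟨h3', h4'⟩
      · exact h3 h3'
      · omega
  -- covering
  have hcover : ∀ b, b < q → Nat.Coprime b q → b ∉ T → q - b ∈ T := by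
    intro b hb hc hbT
    have hb0 := hpos b hc
    rw [hTmem] at hbT ⊢
    have hn1 : (b : ZMod f) ∉ Hp p f := fun h => hbT ⟨hb, hc, Or.inl h⟩
    refine ⟨by omega, hcop' b hb hc, ?_⟩
    rw [hcast b hb, neg_neg]
    by_cases h : -(b : ZMod f) ∈ Hp p f
    · exact Or.inl h
    · right
      refine ⟨hn1, ?_⟩
      have h1 : ¬ 2 * b < q := fun h2 => hbT ⟨hb, hc, Or.inr ⟨h, h2⟩⟩
      have h2 : 2 * b ≠ q := by
        intro h2
        have h3 : Nat.gcd b q = b := Nat.gcd_eq_left (Dvd.intro_left 2 h2)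
        rw [Nat.Coprime] at hc
        omega
      omega
  -- cardinality
  have hTcard : 2 * T.card ≤ Nat.totient q := by
    have h1 : (T.image (fun b => q - b)).card = T.card := by
      apply Finset.card_image_of_injOn
      intro a ha b hb h
      have ha' := ((hTmem a).mp ha).1
      have hb' := ((hTmem b).mp hb).1
      simp only at h
      omega
    have h2 : Disjoint T (T.image (fun b => q - b)) := by
      rw [Finset.disjoint_left]
      intro a ha ha'
      rw [Finset.mem_image] at ha'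
      obtain ⟨b, hb, rfl⟩ := ha'
      exact hdisj b hb ha
    have h3 : T ∪ T.image (fun b => q - b) ⊆ (range q).filter (fun a => Nat.Coprime q a) := by
      intro a ha
      rw [Finset.mem_union] at ha
      rw [Finset.mem_filter, Finset.mem_range]
      rcases ha with ha | ha
      · exact ⟨((hTmem a).mp ha).1, ((hTmem a).mp ha).2.1.symm⟩
      · rw [Finset.mem_image] at ha
        obtain ⟨b, hb, rfl⟩ := ha
        have := (hTmem b).mp hb
        have hb0 := hpos b this.2.1
        exact ⟨by omega, (hcop' b this.1 this.2.1).symm⟩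
    have h4 := Finset.card_le_card h3
    rw [Finset.card_union_of_disjoint h2, h1] at h4
    rw [Nat.totient]
    omega
  have h1T : 1 ∈ T := by
    rw [hTmem]
    refine ⟨by omega, Nat.coprime_one_left q, Or.inl ?_⟩
    exact mem_Hp.mpr ⟨0, by simp⟩
  -- the generating set
  set S : Finset ℂ := insert (Real.pi : ℂ) ((T.erase 1).image (fun b => gam b q)) with hS
  have hScard : S.card ≤ Nat.totient q / 2 := by
    have h1 : S.card ≤ (T.erase 1).card + 1 :=
      (Finset.card_insert_le _ _).trans (Nat.add_le_add_right Finset.card_image_le 1)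
    rw [Finset.card_erase_of_mem h1T] at h1
    have h2 : 0 < T.card := Finset.card_pos.mpr ⟨1, h1T⟩
    omega
  have hpiS : (Real.pi : ℂ) ∈ MM.closure (S : Set ℂ) := subset_cl _ (by simp [hS])
  have hP0 : P0 ⊆ MM.closure (S : Set ℂ) := by
    refine cl_mono ?_
    simp [hS]
  have hTS : ∀ b ∈ T, b ≠ 1 → gam b q ∈ MM.closure (S : Set ℂ) := by
    intro b hb hb1
    refine subset_cl _ ?_
    rw [hS, Finset.coe_insert]
    right
    rw [Finset.mem_coe, Finset.mem_image]
    exact ⟨b, Finset.mem_erase.mpr ⟨hb1, hb⟩, rfl⟩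
  -- the element `1`
  have hone : gam 1 q ∈ MM.closure (S : Set ℂ) := by
    have hrel := relation p n f hp hn hf hpu
    set B := (range (p * n * f)).filter (fun b : ℕ => (b : ZMod f) ∈ Hp p f ∧ ¬ p ∣ b) with hB
    have hp1 : p ≠ 1 := by
      intro h
      have h2 := (hcop 0).not
      have h3 := (hcop 1).mp (Nat.coprime_one_left _)
      rw [h] at h3
      exact h3.1 (one_dvd 1)
    have h1B : 1 ∈ B := by
      rw [hB, Finset.mem_filter, Finset.mem_range]
      refine ⟨by omega, mem_Hp.mpr ⟨0, by simp⟩, ?_⟩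
      intro h
      exact hp1 (Nat.dvd_one.mp h)
    have hBT : ∀ b ∈ B, b ∈ T := by
      intro b hb
      rw [hB, Finset.mem_filter, Finset.mem_range] at hb
      rw [hTmem]
      exact ⟨hb.1, (hcop b).mpr ⟨hb.2.2, hBcop b hb.2.1⟩, Or.inl hb.2.1⟩
    rw [← Finset.mul_prod_erase B _ h1B] at hrel
    have hne : ∏ b ∈ B.erase 1, gam b (p * n * f) ≠ 0 := by
      rw [Finset.prod_ne_zero_iff]
      intro b hb
      have := (hTmem b).mp (hBT b (Finset.mem_of_mem_erase hb))
      exact gam_ne (hpos b this.2.1) hq0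
    have e : gam 1 q = (gam 1 (p * n * f) * ∏ b ∈ B.erase 1, gam b (p * n * f)) /
        ∏ b ∈ B.erase 1, gam b (p * n * f) := by
      rw [mul_div_assoc, div_self hne, mul_one]
    rw [e]
    refine cl_div (hP0 hrel) (cl_prod _ _ fun b hb => ?_)
    exact hTS b (hBT b (Finset.mem_of_mem_erase hb)) (Finset.ne_of_mem_erase hb)
  have hTS' : ∀ b ∈ T, gam b q ∈ MM.closure (S : Set ℂ) := by
    intro b hb
    by_cases h : b = 1
    · rw [h]; exact hone
    · exact hTS b hb h
  refine (trdeg_adjoin_le (T := S) ?_).trans (by exact_mod_cast hScard)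
  rintro z (hz | ⟨a, ha1, ha2, ha3, rfl⟩)
  · rw [Set.mem_singleton_iff] at hz
    rw [hz]
    exact hpiS
  · have haq : a < q := by omega
    have hac : Nat.Coprime a q := ha3
    show gam a q ∈ _
    by_cases haT : a ∈ T
    · exact hTS' a haT
    · have h1 := hTS' _ (hcover a haq hac haT)
      have h2 := hP0 (gam_refl_mem haq.le hq0)
      have h3 : gam (q - a) q ≠ 0 := gam_ne (by omega) hq0
      have e : gam a q = gam a q * gam (q - a) q / gam (q - a) q := by
        rw [mul_div_assoc, div_self h3, mul_one]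
      rw [e]
      exact cl_div h2 h1

/-- The bound for all `q = p^a f` with `p` prime, `a ≥ 1`, `p ∤ f`, `-1` not a power of `p`
modulo `f`. -/
theorem family (p a f : ℕ) (hp : p.Prime) (ha : 1 ≤ a) (hpf : ¬ p ∣ f)
    (hneg : ∀ k : ℕ, ¬ f ∣ p ^ k + 1) :
    2 < p ^ a * f ∧
      Algebra.trdeg ℚ (gammaField (p ^ a * f)) ≤
        ((Nat.totient (p ^ a * f) / 2 : ℕ) : Cardinal) := by
  have hf0 : f ≠ 0 := by rintro rfl; exact hpf (dvd_zero p)
  have hf1 : f ≠ 1 := by rintro rfl; exact hneg 0 (one_dvd _)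
  have hf2 : f ≠ 2 := by
    rintro rfl
    refine hneg 1 ?_
    have h2 : p ≠ 2 := by rintro rfl; exact hpf dvd_rfl
    have hodd : Odd p := hp.odd_of_ne_two h2
    rw [pow_one]
    exact (hodd.add_odd odd_one).two_dvd
  have hf : 2 < f := by omega
  have hpa : 0 < p ^ a := pow_pos hp.pos a
  have hq : 2 < p ^ a * f := by
    calc 2 < f := hf
      _ = 1 * f := (one_mul f).symm
      _ ≤ p ^ a * f := Nat.mul_le_mul_right f hpa
  refine ⟨hq, ?_⟩
  have e : p ^ a * f = p * p ^ (a - 1) * f := by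
    rw [← pow_succ', Nat.sub_add_cancel ha]
  rw [e] at hq ⊢
  refine bound p (p ^ (a - 1)) f hp.pos (pow_pos hp.pos _) (by omega)
    ((Nat.Prime.coprime_iff_not_dvd hp).mpr hpf) hneg ?_ hq
  intro b
  rw [← e, Nat.coprime_mul_iff_right, Nat.coprime_pow_right_iff (by omega),
    Nat.coprime_comm, Nat.Prime.coprime_iff_not_dvd hp]

/-- `-1` is not a power of `2` modulo `7`. -/
theorem seven (k : ℕ) : ¬ 7 ∣ 2 ^ k + 1 := by
  have h : 2 ^ k % 7 = 1 ∨ 2 ^ k % 7 = 2 ∨ 2 ^ k % 7 = 4 := by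
    induction k with
    | zero => left; rfl
    | succ k ih => rw [pow_succ]; omega
  omega

/-- **The inequality of Q1 fails.**  The inequality `tr.deg F_q ≥ 1 + φ(q)/2` is false for
`q = 14`, where `tr.deg F_14 ≤ 3 = φ(14)/2`; more generally `tr.deg F_q ≤ φ(q)/2` for every
`q = p^a f` with `p` prime, `a ≥ 1`, `p ∤ f` and `-1` not congruent to a power of `p` modulo `f`. -/
theorem result :
    (¬ ∀ q : ℕ, 2 < q →
      ((1 + Nat.totient q / 2 : ℕ) : Cardinal) ≤ Algebra.trdeg ℚ (gammaField q)) ∧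
    (Nat.totient 14 = 6 ∧ Algebra.trdeg ℚ (gammaField 14) ≤ 3) ∧
    (∀ p a f : ℕ, p.Prime → 1 ≤ a → ¬ p ∣ f → (∀ k : ℕ, ¬ f ∣ p ^ k + 1) →
      2 < p ^ a * f ∧
      Algebra.trdeg ℚ (gammaField (p ^ a * f)) ≤
        ((Nat.totient (p ^ a * f) / 2 : ℕ) : Cardinal)) := by
  have h14 : Nat.totient 14 = 6 := by decide
  have hb : Algebra.trdeg ℚ (gammaField 14) ≤ 3 := by
    have h := (family 2 1 7 Nat.prime_two le_rfl (by decide) seven).2
    have e : 2 ^ 1 * 7 = 14 := by norm_num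
    rw [e, h14] at h
    exact_mod_cast h
  refine ⟨?_, ⟨h14, hb⟩, fun p a f hp ha hpf hneg => family p a f hp ha hpf hneg⟩
  intro h
  have h1 := (h 14 (by norm_num)).trans hb
  rw [h14] at h1
  have h2 : ((1 + 6 / 2 : ℕ) : Cardinal.{0}) ≤ ((3 : ℕ) : Cardinal.{0}) := by exact_mod_cast h1
  rw [Nat.cast_le] at h2
  omega

end Pool.Agent.Results.MP_274814_nt.LangRohrlichFails
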